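import Mathlib

/-!
Midpoints of diametral chords of bodies of constant width one.

This file contains the definitions and the auxiliary lemmas:
* upper bounds for the distance of two midpoints of unit chords in a set of diameter at most one;
* every nonempty set of diameter at most one is contained in a set of constant width one.
-/

set_option autoImplicit false

open scoped RealInnerProductSpace

namespace Pool.Agent.Lib.MP_04ec84_gt

/-- `K ⊆ ℝ^d` is a set of constant width `1`: it is compact and convex, and for every unit vector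
`u` the distance `sup_{x ∈ K} ⟪u, x⟫ - inf_{x ∈ K} ⟪u, x⟫` between the two supporting hyperplanes of
`K` orthogonal to `u` equals `1`. -/
def IsConstantWidthOne {d : ℕ} (K : Set (EuclideanSpace ℝ (Fin d))) : Prop :=
  IsCompact K ∧ Convex ℝ K ∧ K.Nonempty ∧
    ∀ u : EuclideanSpace ℝ (Fin d), ‖u‖ = 1 →
      sSup ((fun x => ⟪u, x⟫) '' K) - sInf ((fun x => ⟪u, x⟫) '' K) = 1

/-- The set `M(K)` of midpoints of the diametral chords (chords of length `1`) of `K`. -/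
def diametralMidpoints {d : ℕ} (K : Set (EuclideanSpace ℝ (Fin d))) :
    Set (EuclideanSpace ℝ (Fin d)) :=
  {m | ∃ x ∈ K, ∃ y ∈ K, dist x y = 1 ∧ m = midpoint ℝ x y}

variable {d : ℕ}

/-- A set of constant width one has diameter at most one. -/
theorem IsConstantWidthOne.dist_le {K : Set (EuclideanSpace ℝ (Fin d))}
    (hK : IsConstantWidthOne K) {x y : EuclideanSpace ℝ (Fin d)} (hx : x ∈ K) (hy : y ∈ K) :
    dist x y ≤ 1 := by
  obtain ⟨hc, -, -, hw⟩ := hK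
  by_cases hxy : x = y
  · subst hxy; simp
  have hne : x - y ≠ 0 := sub_ne_zero.mpr hxy
  have hpos : 0 < ‖x - y‖ := norm_pos_iff.mpr hne
  set u : EuclideanSpace ℝ (Fin d) := (‖x - y‖)⁻¹ • (x - y) with hu
  have hu1 : ‖u‖ = 1 := by
    rw [hu, norm_smul, norm_inv, norm_norm, inv_mul_cancel₀ hpos.ne']
  have hcont : Continuous (fun z : EuclideanSpace ℝ (Fin d) => ⟪u, z⟫) :=
    continuous_const.inner continuous_id
  have hcomp : IsCompact ((fun z : EuclideanSpace ℝ (Fin d) => ⟪u, z⟫) '' K) := hc.image hcont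
  have h1 : ⟪u, x⟫ ≤ sSup ((fun z : EuclideanSpace ℝ (Fin d) => ⟪u, z⟫) '' K) :=
    le_csSup hcomp.bddAbove ⟨x, hx, rfl⟩
  have h2 : sInf ((fun z : EuclideanSpace ℝ (Fin d) => ⟪u, z⟫) '' K) ≤ ⟪u, y⟫ :=
    csInf_le hcomp.bddBelow ⟨y, hy, rfl⟩
  have h3 : ⟪u, x⟫ - ⟪u, y⟫ = ‖x - y‖ := by
    rw [← inner_sub_right, hu, inner_smul_left, real_inner_self_eq_norm_sq]
    simp
    field_simp
  have h4 := hw u hu1
  rw [dist_eq_norm, ← h3]
  linarith

/-- Distance between midpoints: the parallelogram type identity. -/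
theorem four_mul_midpoint_dist_sq (x₁ y₁ x₂ y₂ : EuclideanSpace ℝ (Fin d)) :
    4 * dist (midpoint ℝ x₁ y₁) (midpoint ℝ x₂ y₂) ^ 2 =
      dist x₁ x₂ ^ 2 + dist x₁ y₂ ^ 2 + dist y₁ x₂ ^ 2 + dist y₁ y₂ ^ 2
        - dist x₁ y₁ ^ 2 - dist x₂ y₂ ^ 2 := by
  simp only [dist_eq_norm, midpoint_eq_smul_add, ← real_inner_self_eq_norm_sq]
  simp only [inner_sub_left, inner_sub_right, inner_add_left, inner_add_right,
    inner_smul_left, inner_smul_right, real_inner_comm x₁ y₁, real_inner_comm x₁ x₂,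
    real_inner_comm x₁ y₂, real_inner_comm y₁ x₂, real_inner_comm y₁ y₂, real_inner_comm x₂ y₂]
  simp
  ring

/-- Upper bound valid in every dimension. -/
theorem midpoint_dist_sq_le_half {x₁ y₁ x₂ y₂ : EuclideanSpace ℝ (Fin d)}
    (h1 : dist x₁ y₁ = 1) (h2 : dist x₂ y₂ = 1)
    (h3 : dist x₁ x₂ ≤ 1) (h4 : dist x₁ y₂ ≤ 1) (h5 : dist y₁ x₂ ≤ 1) (h6 : dist y₁ y₂ ≤ 1) :
    dist (midpoint ℝ x₁ y₁) (midpoint ℝ x₂ y₂) ^ 2 ≤ 1 / 2 := by
  have h := four_mul_midpoint_dist_sq x₁ y₁ x₂ y₂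
  rw [h1, h2] at h
  have e3 : dist x₁ x₂ ^ 2 ≤ 1 := by nlinarith [dist_nonneg (x := x₁) (y := x₂)]
  have e4 : dist x₁ y₂ ^ 2 ≤ 1 := by nlinarith [dist_nonneg (x := x₁) (y := y₂)]
  have e5 : dist y₁ x₂ ^ 2 ≤ 1 := by nlinarith [dist_nonneg (x := y₁) (y := x₂)]
  have e6 : dist y₁ y₂ ^ 2 ≤ 1 := by nlinarith [dist_nonneg (x := y₁) (y := y₂)]
  linarith

/-- The algebraic inequality behind the planar bound. Here `R = |w|^2`, `A = |a|^2`, `B = |b|^2`,
`p = |⟨w, a⟩|`, `q = |⟨w, b⟩|`. -/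
theorem planar_aux {R A B p q : ℝ} (hR : 0 ≤ R) (hA : 0 ≤ A) (hB : 0 ≤ B) (hAB : A + B = 1)
    (hp : 0 ≤ p) (hq : 0 ≤ q) (h1 : R + 2 * p ≤ B) (h2 : R + 2 * q ≤ A)
    (h : p ^ 2 * B + q ^ 2 * A = R * A * B) : R ≤ 1 / 4 := by
  by_contra hcon
  push Not at hcon
  have hBR : 0 ≤ B - R := by linarith
  have hAR : 0 ≤ A - R := by linarith
  have e1 : 4 * p ^ 2 ≤ (B - R) ^ 2 := by nlinarith
  have e2 : 4 * q ^ 2 ≤ (A - R) ^ 2 := by nlinarith
  have e3 : 4 * (R * A * B) ≤ (B - R) ^ 2 * B + (A - R) ^ 2 * A := by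
    rw [← h]
    nlinarith [mul_le_mul_of_nonneg_right e1 hB, mul_le_mul_of_nonneg_right e2 hA]
  have hBe : B = 1 - A := by linarith
  subst hBe
  have e4 : 0 ≤ (1 - R) ^ 2 - 3 * (A * (1 - A)) := by nlinarith
  have e5 : R * (1 - R) ≤ A * (1 - A) := by nlinarith [mul_nonneg hAR hBR]
  nlinarith

/-- In the plane, two vectors `a ⟂ b` satisfy `⟨w,a⟩²|b|² + ⟨w,b⟩²|a|² = |w|²|a|²|b|²`. -/
theorem planar_identity (a b w : EuclideanSpace ℝ (Fin 2)) (hab : ⟪a, b⟫ = 0) :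
    ⟪w, a⟫ ^ 2 * ⟪b, b⟫ + ⟪w, b⟫ ^ 2 * ⟪a, a⟫ = ⟪w, w⟫ * ⟪a, a⟫ * ⟪b, b⟫ := by
  simp only [PiLp.inner_apply, Fin.sum_univ_two, RCLike.inner_apply, conj_trivial] at hab ⊢
  linear_combination ((w 0 ^ 2 - w 1 ^ 2) * (a 0 * b 0 - a 1 * b 1)
    + 2 * w 0 * w 1 * (a 0 * b 1 + a 1 * b 0)) * hab

/-- Upper bound in the plane. -/
theorem midpoint_dist_le_half_planar {x₁ y₁ x₂ y₂ : EuclideanSpace ℝ (Fin 2)}
    (h1 : dist x₁ y₁ = 1) (h2 : dist x₂ y₂ = 1)
    (h3 : dist x₁ x₂ ≤ 1) (h4 : dist x₁ y₂ ≤ 1) (h5 : dist y₁ x₂ ≤ 1) (h6 : dist y₁ y₂ ≤ 1) :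
    dist (midpoint ℝ x₁ y₁) (midpoint ℝ x₂ y₂) ≤ 1 / 2 := by
  set w : EuclideanSpace ℝ (Fin 2) := midpoint ℝ x₁ y₁ - midpoint ℝ x₂ y₂ with hw
  set u : EuclideanSpace ℝ (Fin 2) := x₁ - y₁ with hu
  set v : EuclideanSpace ℝ (Fin 2) := x₂ - y₂ with hv
  set a : EuclideanSpace ℝ (Fin 2) := (1 / 2 : ℝ) • (u + v) with ha
  set b : EuclideanSpace ℝ (Fin 2) := (1 / 2 : ℝ) • (u - v) with hb
  have huu : ⟪u, u⟫ = 1 := by
    rw [real_inner_self_eq_norm_sq, hu, ← dist_eq_norm, h1]; norm_num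
  have hvv : ⟪v, v⟫ = 1 := by
    rw [real_inner_self_eq_norm_sq, hv, ← dist_eq_norm, h2]; norm_num
  have hab : ⟪a, b⟫ = 0 := by
    simp only [ha, hb, inner_smul_left, inner_smul_right, inner_add_left, inner_sub_right, huu,
      hvv, real_inner_comm u v]
    simp
    ring
  have hAB : ⟪a, a⟫ + ⟪b, b⟫ = 1 := by
    simp only [ha, hb, inner_smul_left, inner_smul_right, inner_add_left, inner_sub_right,
      inner_add_right, inner_sub_left, huu, hvv, real_inner_comm u v]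
    simp
    ring
  -- the four difference vectors
  have d1 : x₁ - x₂ = w + b := by
    rw [hw, hb, hu, hv, midpoint_eq_smul_add, midpoint_eq_smul_add, invOf_eq_inv]
    module
  have d2 : y₁ - y₂ = w - b := by
    rw [hw, hb, hu, hv, midpoint_eq_smul_add, midpoint_eq_smul_add, invOf_eq_inv]
    module
  have d3 : x₁ - y₂ = w + a := by
    rw [hw, ha, hu, hv, midpoint_eq_smul_add, midpoint_eq_smul_add, invOf_eq_inv]
    module
  have d4 : y₁ - x₂ = w - a := by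
    rw [hw, ha, hu, hv, midpoint_eq_smul_add, midpoint_eq_smul_add, invOf_eq_inv]
    module
  have k1 : ⟪w, w⟫ + 2 * ⟪w, b⟫ + ⟪b, b⟫ ≤ 1 := by
    have : ‖w + b‖ ^ 2 ≤ 1 := by
      rw [← d1, ← dist_eq_norm]; nlinarith [dist_nonneg (x := x₁) (y := x₂)]
    rw [← real_inner_self_eq_norm_sq] at this
    simp only [inner_add_left, inner_add_right, real_inner_comm w b] at this
    linarith
  have k2 : ⟪w, w⟫ - 2 * ⟪w, b⟫ + ⟪b, b⟫ ≤ 1 := by
    have : ‖w - b‖ ^ 2 ≤ 1 := by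
      rw [← d2, ← dist_eq_norm]; nlinarith [dist_nonneg (x := y₁) (y := y₂)]
    rw [← real_inner_self_eq_norm_sq] at this
    simp only [inner_sub_left, inner_sub_right, real_inner_comm w b] at this
    linarith
  have k3 : ⟪w, w⟫ + 2 * ⟪w, a⟫ + ⟪a, a⟫ ≤ 1 := by
    have : ‖w + a‖ ^ 2 ≤ 1 := by
      rw [← d3, ← dist_eq_norm]; nlinarith [dist_nonneg (x := x₁) (y := y₂)]
    rw [← real_inner_self_eq_norm_sq] at this
    simp only [inner_add_left, inner_add_right, real_inner_comm w a] at this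
    linarith
  have k4 : ⟪w, w⟫ - 2 * ⟪w, a⟫ + ⟪a, a⟫ ≤ 1 := by
    have : ‖w - a‖ ^ 2 ≤ 1 := by
      rw [← d4, ← dist_eq_norm]; nlinarith [dist_nonneg (x := y₁) (y := x₂)]
    rw [← real_inner_self_eq_norm_sq] at this
    simp only [inner_sub_left, inner_sub_right, real_inner_comm w a] at this
    linarith
  have hmain : ⟪w, w⟫ ≤ 1 / 4 := by
    apply planar_aux (R := ⟪w, w⟫) (A := ⟪a, a⟫) (B := ⟪b, b⟫) (p := |⟪w, a⟫|)
      (q := |⟪w, b⟫|) real_inner_self_nonneg real_inner_self_nonneg real_inner_self_nonneg hAB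
      (abs_nonneg _) (abs_nonneg _)
    · rcases abs_cases ⟪w, a⟫ with h | h <;> rw [h.1] <;> linarith
    · rcases abs_cases ⟪w, b⟫ with h | h <;> rw [h.1] <;> linarith
    · rw [sq_abs, sq_abs]
      exact planar_identity a b w hab
  rw [dist_eq_norm, ← hw]
  rw [real_inner_self_eq_norm_sq] at hmain
  nlinarith [norm_nonneg w]

end Pool.Agent.Lib.MP_04ec84_gt
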