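import Mathlib
import Pool.Agent.Lib.MP_04ec84_gt.Basic

/-!
Every nonempty set of diameter at most one in `ℝ^d` is contained in a set of constant width one
(Zorn's lemma plus the theorem that diametrically maximal sets have constant width).
-/

set_option autoImplicit false

open scoped RealInnerProductSpace

namespace Pool.Agent.Lib.MP_04ec84_gt

variable {d : ℕ}

/-- A maximal set of diameter at most one containing a given one. -/
theorem exists_maximal (X : Set (EuclideanSpace ℝ (Fin d)))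
    (hX : ∀ x ∈ X, ∀ y ∈ X, dist x y ≤ 1) :
    ∃ K : Set (EuclideanSpace ℝ (Fin d)), X ⊆ K ∧ (∀ x ∈ K, ∀ y ∈ K, dist x y ≤ 1) ∧
      ∀ z, (∀ x ∈ K, dist x z ≤ 1) → z ∈ K := by
  obtain ⟨K, hXK, hK⟩ := zorn_subset_nonempty
    {S : Set (EuclideanSpace ℝ (Fin d)) | ∀ x ∈ S, ∀ y ∈ S, dist x y ≤ 1} (by
      intro c hc hchain _
      refine ⟨⋃₀ c, ?_, fun s hs => Set.subset_sUnion_of_mem hs⟩
      rintro x ⟨s, hs, hxs⟩ y ⟨t, ht, hyt⟩
      rcases hchain.total hs ht with hst | hts
      · exact hc ht x (hst hxs) y hyt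
      · exact hc hs x hxs y (hts hyt)) X hX
  refine ⟨K, hXK, hK.prop, ?_⟩
  intro z hz
  have hins : insert z K ∈ {S : Set (EuclideanSpace ℝ (Fin d)) |
      ∀ x ∈ S, ∀ y ∈ S, dist x y ≤ 1} := by
    intro x hx y hy
    rcases hx with rfl | hx
    · rcases hy with rfl | hy
      · simp
      · rw [dist_comm]; exact hz y hy
    · rcases hy with rfl | hy
      · exact hz x hx
      · exact hK.prop x hx y hy
  exact hK.le_of_ge hins (Set.subset_insert z K) (Set.mem_insert z K)

/-- Points near a convex combination of two points of `K` stay in `K`. -/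
theorem fat_segment {K : Set (EuclideanSpace ℝ (Fin d))}
    (hK : ∀ x ∈ K, ∀ y ∈ K, dist x y ≤ 1)
    (hmax : ∀ z, (∀ x ∈ K, dist x z ≤ 1) → z ∈ K)
    {x y : EuclideanSpace ℝ (Fin d)} (hx : x ∈ K) (hy : y ∈ K) {t : ℝ} (ht0 : 0 ≤ t)
    (ht1 : t ≤ 1) {v : EuclideanSpace ℝ (Fin d)} (hv : ‖v‖ ≤ t * (1 - t) * ‖y - x‖ ^ 2 / 2) :
    x + t • (y - x) + v ∈ K := by
  apply hmax
  intro c hc
  have h1 : ‖x - c‖ ^ 2 ≤ 1 := by
    have := hK x hx c hc
    rw [dist_eq_norm] at this
    nlinarith [norm_nonneg (x - c)]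
  have h2 : ‖y - c‖ ^ 2 ≤ 1 := by
    have := hK y hy c hc
    rw [dist_eq_norm] at this
    nlinarith [norm_nonneg (y - c)]
  have hs0 : 0 ≤ t * (1 - t) * ‖y - x‖ ^ 2 := by
    have : 0 ≤ 1 - t := by linarith
    positivity
  -- the squared distance of the point of the segment to `c`
  have h3 : ‖x + t • (y - x) - c‖ ^ 2 ≤ 1 - t * (1 - t) * ‖y - x‖ ^ 2 := by
    have e1 : x + t • (y - x) - c = (1 - t) • (x - c) + t • (y - c) := by module
    have e2 : y - x = (y - c) - (x - c) := by abel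
    rw [e1, e2]
    generalize hp : x - c = p at *
    generalize hq : y - c = q at *
    rw [← real_inner_self_eq_norm_sq] at h1 h2 ⊢
    rw [← real_inner_self_eq_norm_sq]
    simp only [inner_add_left, inner_add_right, inner_sub_left, inner_sub_right,
      inner_smul_left, inner_smul_right, conj_trivial, real_inner_comm p q]
    nlinarith
  have h4 : ‖x + t • (y - x) - c‖ ≤ 1 - t * (1 - t) * ‖y - x‖ ^ 2 / 2 := by
    have hs1 : t * (1 - t) * ‖y - x‖ ^ 2 ≤ 1 := by
      nlinarith [sq_nonneg ‖x + t • (y - x) - c‖]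
    apply le_of_sq_le_sq _ (by linarith)
    nlinarith
  rw [dist_comm, dist_eq_norm]
  calc ‖x + t • (y - x) + v - c‖ = ‖(x + t • (y - x) - c) + v‖ := by congr 1; abel
    _ ≤ ‖x + t • (y - x) - c‖ + ‖v‖ := norm_add_le _ _
    _ ≤ 1 := by linarith

/-- If `x` maximises `⟪u, ·⟫` over the diametrically maximal set `K`, then `x - u ∈ K`. -/
theorem opposite_mem {K : Set (EuclideanSpace ℝ (Fin d))}
    (hK : ∀ x ∈ K, ∀ y ∈ K, dist x y ≤ 1)
    (hmax : ∀ z, (∀ x ∈ K, dist x z ≤ 1) → z ∈ K)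
    {u x : EuclideanSpace ℝ (Fin d)} (hu : ‖u‖ = 1) (hx : x ∈ K)
    (hmx : ∀ y ∈ K, ⟪u, y⟫ ≤ ⟪u, x⟫) : x - u ∈ K := by
  apply hmax
  intro y hy
  by_contra hcon
  push Not at hcon
  -- `ℓ² + 2 ⟪y - x, u⟫ > 0`
  set L : ℝ := ‖y - x‖ ^ 2 with hL
  have hkey : 0 < L + 2 * ⟪u, y - x⟫ := by
    rw [dist_eq_norm] at hcon
    have e : y - (x - u) = (y - x) + u := by abel
    rw [e] at hcon
    have h1 : 1 < ‖(y - x) + u‖ ^ 2 := by nlinarith
    rw [norm_add_sq_real, hu, real_inner_comm] at h1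
    linarith
  have hLnn : 0 ≤ L := by positivity
  -- choose a small `t`
  have hLpos : 0 < L := by
    rcases hLnn.lt_or_eq with h | h
    · exact h
    · exfalso
      have : ‖y - x‖ = 0 := by
        have h' : ‖y - x‖ ^ 2 = 0 := by rw [← hL]; exact h.symm
        exact pow_eq_zero_iff (two_ne_zero) |>.mp h'
      have : y - x = 0 := norm_eq_zero.mp this
      rw [this, ← h] at hkey
      simp at hkey
  obtain ⟨t, ht0, ht1, ht⟩ : ∃ t : ℝ, 0 < t ∧ t ≤ 1 ∧ t * L < L + 2 * ⟪u, y - x⟫ := by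
    refine ⟨min 1 ((L + 2 * ⟪u, y - x⟫) / (2 * L)), ?_, min_le_left _ _, ?_⟩
    · apply lt_min one_pos
      positivity
    · calc min 1 ((L + 2 * ⟪u, y - x⟫) / (2 * L)) * L
          ≤ ((L + 2 * ⟪u, y - x⟫) / (2 * L)) * L :=
            mul_le_mul_of_nonneg_right (min_le_right _ _) hLnn
        _ = (L + 2 * ⟪u, y - x⟫) / 2 := by field_simp
        _ < L + 2 * ⟪u, y - x⟫ := by linarith
  have hmem : x + t • (y - x) + (t * (1 - t) * L / 2) • u ∈ K := by
    apply fat_segment hK hmax hx hy ht0.le ht1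
    rw [norm_smul, hu, mul_one, Real.norm_of_nonneg]
    have : 0 ≤ 1 - t := by linarith
    positivity
  have h5 := hmx _ hmem
  rw [inner_add_right, inner_add_right, inner_smul_right, inner_smul_right,
    real_inner_self_eq_norm_sq, hu] at h5
  nlinarith

/-- **Completion theorem.** Every nonempty set of diameter at most one is contained in a set of
constant width one. -/
theorem exists_constantWidth (X : Set (EuclideanSpace ℝ (Fin d))) (hne : X.Nonempty)
    (hX : ∀ x ∈ X, ∀ y ∈ X, dist x y ≤ 1) :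
    ∃ K : Set (EuclideanSpace ℝ (Fin d)), X ⊆ K ∧ IsConstantWidthOne K := by
  obtain ⟨K, hXK, hK, hmax⟩ := exists_maximal X hX
  have hKeq : K = ⋂ c ∈ K, Metric.closedBall c 1 := by
    ext z
    simp only [Set.mem_iInter, Metric.mem_closedBall]
    constructor
    · intro hz c hc
      exact hK z hz c hc
    · intro hz
      exact hmax z (fun x hx => by rw [dist_comm]; exact hz x hx)
  have hclosed : IsClosed K := by
    rw [hKeq]
    exact isClosed_biInter fun c _ => Metric.isClosed_closedBall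
  have hconv : Convex ℝ K := by
    rw [hKeq]
    exact convex_iInter₂ fun c _ => convex_closedBall c 1
  have hneK : K.Nonempty := hne.mono hXK
  have hbdd : Bornology.IsBounded K := by
    rw [Metric.isBounded_iff]
    exact ⟨1, fun x hx y hy => hK x hx y hy⟩
  have hcomp : IsCompact K := Metric.isCompact_of_isClosed_isBounded hclosed hbdd
  refine ⟨K, hXK, hcomp, hconv, hneK, ?_⟩
  intro u hu
  have hcont : Continuous (fun z : EuclideanSpace ℝ (Fin d) => ⟪u, z⟫) :=
    continuous_const.inner continuous_id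
  have hcompI : IsCompact ((fun z : EuclideanSpace ℝ (Fin d) => ⟪u, z⟫) '' K) := hcomp.image hcont
  obtain ⟨x, hx, hmx⟩ := hcomp.exists_isMaxOn hneK hcont.continuousOn
  obtain ⟨y, hy, hmy⟩ := hcomp.exists_isMinOn hneK hcont.continuousOn
  have hsup : sSup ((fun z : EuclideanSpace ℝ (Fin d) => ⟪u, z⟫) '' K) = ⟪u, x⟫ := by
    apply le_antisymm
    · apply csSup_le (hneK.image _)
      rintro _ ⟨z, hz, rfl⟩
      exact hmx hz
    · exact le_csSup hcompI.bddAbove ⟨x, hx, rfl⟩
  have hinf : sInf ((fun z : EuclideanSpace ℝ (Fin d) => ⟪u, z⟫) '' K) = ⟪u, y⟫ := by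
    apply le_antisymm
    · exact csInf_le hcompI.bddBelow ⟨y, hy, rfl⟩
    · apply le_csInf (hneK.image _)
      rintro _ ⟨z, hz, rfl⟩
      exact hmy hz
  rw [hsup, hinf]
  apply le_antisymm
  · have h1 : ⟪u, x - y⟫ ≤ ‖u‖ * ‖x - y‖ := real_inner_le_norm _ _
    have h2 := hK x hx y hy
    rw [dist_eq_norm] at h2
    rw [inner_sub_right, hu] at h1
    linarith
  · have hop : x - u ∈ K := opposite_mem hK hmax hu hx (fun z hz => hmx hz)
    have h3 : ⟪u, y⟫ ≤ ⟪u, x - u⟫ := hmy hop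
    rw [inner_sub_right, real_inner_self_eq_norm_sq, hu] at h3
    linarith

end Pool.Agent.Lib.MP_04ec84_gt
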